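import Pool.Agent.Helper75.Ch.Defs

set_option autoImplicit false

namespace Pool.Agent.Helper19.Ch

open Finset Classical Pool.Agent.Helper75.Ch

variable {V : Type*} [Fintype V]

lemma mem_nb {G : SimpleGraph V} {W : Finset V} {y : V} :
    y ∈ nb G W ↔ y ∉ W ∧ ∃ x ∈ W, G.Adj x y := by
  simp [nb]

lemma conn_singleton (G : SimpleGraph V) (a : V) : Conn G {a} := by
  refine ⟨⟨a, by simp⟩, ?_⟩
  intro W hW hne _
  rcases Finset.subset_singleton_iff.mp hW with h | h
  · exact absurd h hne.ne_empty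
  · exact h

lemma conn_mono {G H : SimpleGraph V} (hGH : H ≤ G) {T : Finset V} (hT : Conn H T) :
    Conn G T :=
  ⟨hT.1, fun W hW hne hcl => hT.2 W hW hne fun x hx y hy hxy => hcl x hx y hy (hGH hxy)⟩

lemma conn_union {G : SimpleGraph V} {S T : Finset V} (hS : Conn G S) (hT : Conn G T)
    {x y : V} (hx : x ∈ S) (hy : y ∈ T) (hxy : x = y ∨ G.Adj x y) : Conn G (S ∪ T) := by
  have key : ∀ W : Finset V, W ⊆ S ∪ T →
      (∀ u ∈ W, ∀ v ∈ S ∪ T, G.Adj u v → v ∈ W) →
      ∀ U : Finset V, U ⊆ S ∪ T → Conn G U → (∃ u ∈ U, u ∈ W) → U ⊆ W := by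
    intro W hW hcl U hU hUc ⟨u, hu, huW⟩
    have h := hUc.2 (W ∩ U) Finset.inter_subset_right ⟨u, by simp [hu, huW]⟩
      (fun a ha b hb hab => by
        rw [Finset.mem_inter] at ha ⊢
        exact ⟨hcl a ha.1 b (hU hb) hab, hb⟩)
    intro b hb
    rw [← h] at hb
    exact (Finset.mem_inter.mp hb).1
  refine ⟨⟨x, by simp [hx]⟩, ?_⟩
  intro W hW hne hcl
  have kS := key W hW hcl S Finset.subset_union_left hS
  have kT := key W hW hcl T Finset.subset_union_right hT
  obtain ⟨u, hu⟩ := hne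
  have hSW : S ⊆ W ∧ T ⊆ W := by
    rcases Finset.mem_union.mp (hW hu) with h | h
    · have h1 := kS ⟨u, h, hu⟩
      refine ⟨h1, kT ⟨y, hy, ?_⟩⟩
      rcases hxy with rfl | hxy
      · exact h1 hx
      · exact hcl x (h1 hx) y (by simp [hy]) hxy
    · have h1 := kT ⟨u, h, hu⟩
      refine ⟨kS ⟨x, hx, ?_⟩, h1⟩
      rcases hxy with rfl | hxy
      · exact h1 hy
      · exact hcl y (h1 hy) x (by simp [hx]) hxy.symm
  exact Finset.Subset.antisymm hW (Finset.union_subset hSW.1 hSW.2)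

/-- Existence of the connected component of `a` inside `S`. -/
lemma exists_component (G : SimpleGraph V) (S : Finset V) (a : V) (ha : a ∈ S) :
    ∃ D : Finset V, D ⊆ S ∧ a ∈ D ∧ Conn G D ∧ (∀ x ∈ D, ∀ y ∈ S, G.Adj x y → y ∈ D) ∧
      ∀ W : Finset V, a ∈ W → (∀ x ∈ W, ∀ y ∈ S, G.Adj x y → y ∈ W) → D ⊆ W := by
  set D : Finset V := S.filter fun z => ∀ W : Finset V, a ∈ W →
    (∀ x ∈ W, ∀ y ∈ S, G.Adj x y → y ∈ W) → z ∈ W with hD
  have hsub : D ⊆ S := Finset.filter_subset _ _
  have haD : a ∈ D := by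
    rw [hD, Finset.mem_filter]
    exact ⟨ha, fun W hW _ => hW⟩
  have hcl : ∀ x ∈ D, ∀ y ∈ S, G.Adj x y → y ∈ D := by
    intro x hx y hy hxy
    rw [hD, Finset.mem_filter] at hx ⊢
    exact ⟨hy, fun W hW hWcl => hWcl x (hx.2 W hW hWcl) y hy hxy⟩
  have hmin : ∀ W : Finset V, a ∈ W → (∀ x ∈ W, ∀ y ∈ S, G.Adj x y → y ∈ W) → D ⊆ W := by
    intro W hW hWcl z hz
    rw [hD, Finset.mem_filter] at hz
    exact hz.2 W hW hWcl
  refine ⟨D, hsub, haD, ⟨⟨a, haD⟩, ?_⟩, hcl, hmin⟩
  intro W hWD hne hWcl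
  by_cases haW : a ∈ W
  · refine Finset.Subset.antisymm hWD (hmin W haW ?_)
    intro x hx y hy hxy
    exact hWcl x hx y (hcl x (hWD hx) y hy hxy) hxy
  · exfalso
    have h := hmin (D \ W) (by simp [haD, haW]) (by
      intro x hx y hy hxy
      rw [Finset.mem_sdiff] at hx ⊢
      have hyD := hcl x hx.1 y hy hxy
      refine ⟨hyD, fun hyW => hx.2 (hWcl y hyW x hx.1 hxy.symm)⟩)
    obtain ⟨w, hw⟩ := hne
    exact (Finset.mem_sdiff.mp (h (hWD hw))).2 hw

lemma trim {H : SimpleGraph V} {T R P : Finset V} {p a : V} (hT : Conn H T) (hp : p ∈ T)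
    (ha : a ∈ T) (hTP : ∀ z ∈ T, z ∈ P → z = p)
    (hR : ∀ w ∈ R, ∀ z, H.Adj w z → z ∉ P → z ∈ R) (haR : a ∉ P → a ∈ R) (hpP : p ∈ P) :
    ∃ E : Finset V, E ⊆ T ∧ Conn H E ∧ a ∈ E ∧ p ∈ E ∧ ∀ z ∈ E, z = p ∨ (z ∈ R ∧ z ∉ P) := by
  by_cases hap : a = p
  · subst hap
    exact ⟨{a}, by simpa using ha, conn_singleton H a, by simp, by simp, by
      intro z hz; left; simpa using hz⟩
  have haP : a ∉ P := fun h => hap (hTP a ha h)
  obtain ⟨D, hDS, haD, hDc, hDcl, hDmin⟩ := exists_component H (T \ P) a (by simp [ha, haP])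
  have hDR : D ⊆ R := by
    apply hDmin R (haR haP)
    intro x hx y hy hxy
    exact hR x hx y hxy (Finset.mem_sdiff.mp hy).2
  have hpD : p ∉ D := fun h => (Finset.mem_sdiff.mp (hDS h)).2 hpP
  have hadj : ∃ x ∈ D, H.Adj x p := by
    by_contra hno
    push_neg at hno
    have h := hT.2 D (hDS.trans Finset.sdiff_subset) ⟨a, haD⟩ (by
      intro x hx y hy hxy
      apply hDcl x hx y _ hxy
      rw [Finset.mem_sdiff]
      refine ⟨hy, fun hyP => ?_⟩
      have := hTP y hy hyP
      subst this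
      exact hno x hx hxy)
    rw [h] at hpD
    exact hpD hp
  obtain ⟨x, hx, hxp⟩ := hadj
  refine ⟨D ∪ {p}, ?_, conn_union hDc (conn_singleton H p) hx (by simp) (Or.inr hxp), by simp [haD],
    by simp, ?_⟩
  · apply Finset.union_subset (hDS.trans Finset.sdiff_subset)
    simpa using hp
  · intro z hz
    rcases Finset.mem_union.mp hz with h | h
    · right
      exact ⟨hDR h, (Finset.mem_sdiff.mp (hDS h)).2⟩
    · left
      simpa using h

/-- Choice of the unique representatives. -/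
lemma reps {k : ℕ} {T : Fin k → Finset V} (hd : ∀ i j, i ≠ j → Disjoint (T i) (T j))
    {P : Finset V} (hP : P.card = k) (hmeet : ∀ i, ∃ p ∈ P, p ∈ T i) :
    ∃ f : Fin k → V, Function.Injective f ∧ (∀ i, f i ∈ P) ∧ (∀ i, f i ∈ T i) ∧
      (∀ i, ∀ z ∈ T i, z ∈ P → z = f i) ∧ ∀ p ∈ P, ∃ i, f i = p := by
  choose f hfP hfT using hmeet
  have hinj : Function.Injective f := by
    intro i j hij
    by_contra hne
    have := Finset.disjoint_left.mp (hd i j hne) (hfT i)
    rw [hij] at this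
    exact this (hfT j)
  have himg : Finset.univ.image f = P := by
    apply Finset.eq_of_subset_of_card_le
    · intro z hz
      obtain ⟨i, -, rfl⟩ := Finset.mem_image.mp hz
      exact hfP i
    · rw [hP, Finset.card_image_of_injective _ hinj, Finset.card_univ, Fintype.card_fin]
  have hsurj : ∀ p ∈ P, ∃ i, f i = p := by
    intro p hp
    rw [← himg] at hp
    obtain ⟨i, -, hi⟩ := Finset.mem_image.mp hp
    exact ⟨i, hi⟩
  refine ⟨f, hinj, hfP, hfT, ?_, hsurj⟩
  intro i z hz hzP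
  obtain ⟨j, rfl⟩ := hsurj z hzP
  by_cases hij : j = i
  · rw [hij]
  · exact absurd hz (Finset.disjoint_left.mp (hd j i hij) (hfT j))

/-- (T1) Menger's theorem in cut form, with connected sets instead of paths. -/
theorem menger (G : SimpleGraph V) (A B : Finset V) (k : ℕ)
    (h : ∀ W : Finset V, Disjoint W B → k ≤ ((nb G W ∪ A) \ W).card) :
    ∃ T : Fin k → Finset V,
      (∀ i, Conn G (T i) ∧ (∃ a ∈ A, a ∈ T i) ∧ (∃ b ∈ B, b ∈ T i)) ∧
      (∀ i j, i ≠ j → Disjoint (T i) (T j)) := by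
  induction G using WellFoundedLT.induction generalizing A B with
  | ind G ih =>
  by_cases hedge : ∃ x y, G.Adj x y
  swap
  · -- no edges
    push_neg at hedge
    have h0 := h (Finset.univ \ B) (Finset.sdiff_disjoint)
    have hnb : nb G (Finset.univ \ B) = ∅ := by
      ext y
      rw [mem_nb]
      constructor
      · rintro ⟨-, x, -, hxy⟩
        exact absurd hxy (hedge x y)
      · intro hy
        simp at hy
    rw [hnb, Finset.empty_union] at h0
    obtain ⟨S, hS, hSk⟩ := Finset.exists_subset_card_eq h0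
    let e := S.equivFinOfCardEq hSk
    have hmem : ∀ i : Fin k, ((e.symm i : S) : V) ∈ A ∧ ((e.symm i : S) : V) ∈ B := by
      intro i
      have := hS (e.symm i).2
      simpa using this
    refine ⟨fun i => {((e.symm i : S) : V)}, ?_, ?_⟩
    · intro i
      exact ⟨conn_singleton G _, ⟨_, (hmem i).1, by simp⟩, ⟨_, (hmem i).2, by simp⟩⟩
    · intro i j hij
      rw [Finset.disjoint_singleton]
      intro hc
      exact hij (e.symm.injective (Subtype.ext hc))
  obtain ⟨x0, y0, hxy0⟩ := hedge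
  have hlt : ∀ x y : V, G.Adj x y → G.deleteEdges {s(x, y)} < G := by
    intro x y hxy
    refine lt_of_le_of_ne (SimpleGraph.deleteEdges_le _) ?_
    intro hc
    have : (G.deleteEdges {s(x, y)}).Adj x y := by rw [hc]; exact hxy
    simp [SimpleGraph.deleteEdges_adj] at this
  by_cases hdel : ∀ W : Finset V, Disjoint W B →
      k ≤ ((nb (G.deleteEdges {s(x0, y0)}) W ∪ A) \ W).card
  · obtain ⟨T, hT, hd⟩ := ih _ (hlt x0 y0 hxy0) A B hdel
    exact ⟨T, fun i => ⟨conn_mono (SimpleGraph.deleteEdges_le _) (hT i).1, (hT i).2⟩, hd⟩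
  push_neg at hdel
  obtain ⟨W1, hW1B, hW1⟩ := hdel
  -- find the endpoint `y` outside `W1`
  have hex : ∃ x y, x ∈ W1 ∧ y ∉ W1 ∧ y ∉ A ∧ G.Adj x y ∧
      y ∉ nb (G.deleteEdges {s(x0, y0)}) W1 ∧ s(x, y) = s(x0, y0) := by
    by_contra hno
    push_neg at hno
    have hsub : (nb G W1 ∪ A) \ W1 ⊆ (nb (G.deleteEdges {s(x0, y0)}) W1 ∪ A) \ W1 := by
      intro z hz
      rw [Finset.mem_sdiff, Finset.mem_union] at hz ⊢
      refine ⟨?_, hz.2⟩
      by_cases hzA : z ∈ A
      · exact Or.inr hzA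
      left
      rcases hz.1 with hz1 | hz1
      · by_contra hc
        obtain ⟨-, w, hw, hwz⟩ := mem_nb.mp hz1
        have h1 := hno w z hw hz.2 hzA hwz hc
        apply hc
        rw [mem_nb]
        refine ⟨hz.2, w, hw, ?_⟩
        rw [SimpleGraph.deleteEdges_adj]
        exact ⟨hwz, by simpa using h1⟩
      · exact absurd hz1 hzA
    have := Finset.card_le_card hsub
    have := h W1 hW1B
    omega
  obtain ⟨x, y, hx, hy, hyA, hxy, hynb, hs⟩ := hex
  rw [← hs] at hW1 hynb
  clear hs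
  set H := G.deleteEdges {s(x, y)} with hH
  have hHG : H ≤ G := SimpleGraph.deleteEdges_le _
  have hHadj : ∀ u v, G.Adj u v → ¬ (u = x ∧ v = y) → ¬ (u = y ∧ v = x) → H.Adj u v := by
    intro u v huv h1 h2
    rw [hH, SimpleGraph.deleteEdges_adj]
    refine ⟨huv, ?_⟩
    intro hc
    have hc' : s(u, v) = s(x, y) := hc
    rw [Sym2.eq_iff] at hc'
    rcases hc' with hc' | hc'
    · exact h1 hc'
    · exact h2 hc'
  set X := (nb H W1 ∪ A) \ W1 with hX
  have hXW1 : ∀ z ∈ X, z ∉ W1 := fun z hz => (Finset.mem_sdiff.mp hz).2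
  have hbd : (nb G W1 ∪ A) \ W1 ⊆ insert y X := by
    intro z hz
    rw [Finset.mem_sdiff, Finset.mem_union] at hz
    rw [Finset.mem_insert]
    by_cases hzy : z = y
    · exact Or.inl hzy
    right
    rw [hX, Finset.mem_sdiff, Finset.mem_union]
    refine ⟨?_, hz.2⟩
    rcases hz.1 with hz1 | hz1
    · left
      obtain ⟨h1, w, hw, hwz⟩ := mem_nb.mp hz1
      rw [mem_nb]
      refine ⟨h1, w, hw, hHadj w z hwz (fun h => hzy h.2) ?_⟩
      rintro ⟨rfl, -⟩
      exact hy hw
    · exact Or.inr hz1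
  have hyX : y ∉ X := by
    rw [hX, Finset.mem_sdiff, Finset.mem_union]
    rintro ⟨h1 | h1, -⟩
    · exact hynb h1
    · exact hyA h1
  have hxX : x ∉ X := fun hc => hXW1 x hc hx
  have hcard : X.card + 1 = k := by
    have h1 := h W1 hW1B
    have h2 := Finset.card_le_card hbd
    have h3 := Finset.card_insert_of_notMem hyX
    omega
  have hP : (insert x X).card = k := by rw [Finset.card_insert_of_notMem hxX, hcard]
  have hQ : (insert y X).card = k := by rw [Finset.card_insert_of_notMem hyX, hcard]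
  have hne : x ≠ y := hxy.ne
  -- (a)
  have ha : ∀ W : Finset V, Disjoint W (insert x X) → k ≤ ((nb H W ∪ A) \ W).card := by
    intro W hW
    have hxW : x ∉ W := fun hc => Finset.disjoint_left.mp hW hc (by simp)
    have h1 := h (W ∩ W1) (hW1B.mono_left Finset.inter_subset_right)
    refine h1.trans (Finset.card_le_card ?_)
    intro z hz
    rw [Finset.mem_sdiff, Finset.mem_union] at hz
    have hor : z ∈ A ∨ ∃ w ∈ W, w ∈ W1 ∧ H.Adj w z := by
      rcases hz.1 with hz1 | hz1
      · right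
        obtain ⟨-, w, hw, hwz⟩ := mem_nb.mp hz1
        rw [Finset.mem_inter] at hw
        refine ⟨w, hw.1, hw.2, hHadj w z hwz ?_ ?_⟩
        · rintro ⟨rfl, -⟩
          exact hxW hw.1
        · rintro ⟨rfl, -⟩
          exact hy hw.2
      · exact Or.inl hz1
    have hzW : z ∉ W := by
      intro hzW
      have hzW1 : z ∉ W1 := fun hc => hz.2 (Finset.mem_inter.mpr ⟨hzW, hc⟩)
      have hzX : z ∈ X := by
        rw [hX, Finset.mem_sdiff, Finset.mem_union]
        refine ⟨?_, hzW1⟩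
        rcases hor with h2 | ⟨w, hw, hw1, hwz⟩
        · exact Or.inr h2
        · left
          rw [mem_nb]
          exact ⟨hzW1, w, hw1, hwz⟩
      exact Finset.disjoint_left.mp hW hzW (by simp [hzX])
    rw [Finset.mem_sdiff, Finset.mem_union]
    refine ⟨?_, hzW⟩
    rcases hor with h2 | ⟨w, hw, hw1, hwz⟩
    · exact Or.inr h2
    · left
      rw [mem_nb]
      exact ⟨hzW, w, hw, hwz⟩
  -- (b)
  have hb : ∀ W : Finset V, Disjoint W B → k ≤ ((nb H W ∪ insert y X) \ W).card := by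
    intro W hW
    have h1 := h (W1 ∪ W) (Finset.disjoint_union_left.mpr ⟨hW1B, hW⟩)
    refine h1.trans (Finset.card_le_card ?_)
    intro z hz
    rw [Finset.mem_sdiff, Finset.mem_union, Finset.mem_union, not_or] at hz
    rw [Finset.mem_sdiff, Finset.mem_union]
    refine ⟨?_, hz.2.2⟩
    rcases hz.1 with hz1 | hz1
    · obtain ⟨-, w, hw, hwz⟩ := mem_nb.mp hz1
      rcases Finset.mem_union.mp hw with hw | hw
      · right
        apply hbd
        rw [Finset.mem_sdiff, Finset.mem_union]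
        exact ⟨Or.inl (mem_nb.mpr ⟨hz.2.1, w, hw, hwz⟩), hz.2.1⟩
      · by_cases hzy : z = y
        · right
          simp [hzy]
        · left
          rw [mem_nb]
          refine ⟨hz.2.2, w, hw, hHadj w z hwz (fun h => hzy h.2) ?_⟩
          rintro ⟨-, rfl⟩
          exact hz.2.1 hx
    · right
      apply hbd
      rw [Finset.mem_sdiff, Finset.mem_union]
      exact ⟨Or.inr hz1, hz.2.1⟩
  obtain ⟨T, hT, hTd⟩ := ih H (hlt x y hxy) A (insert x X) ha
  obtain ⟨T', hT', hTd'⟩ := ih H (hlt x y hxy) (insert y X) B hb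
  obtain ⟨f, hfinj, hfP, hfT, hfu, hfs⟩ := reps hTd hP (fun i => (hT i).2.2)
  obtain ⟨g, hginj, hgP, hgT, hgu, hgs⟩ := reps hTd' hQ (fun i => (hT' i).2.1)
  -- trimming
  have htrim : ∀ i, ∃ E : Finset V, E ⊆ T i ∧ Conn H E ∧ (∃ a ∈ A, a ∈ E) ∧ f i ∈ E ∧
      ∀ z ∈ E, z = f i ∨ (z ∈ W1 ∧ z ∉ insert x X) := by
    intro i
    obtain ⟨hc, ⟨a, haA, haT⟩, -⟩ := hT i
    obtain ⟨E, h1, h2, h3, h4, h5⟩ := trim (R := W1) hc (hfT i) haT (hfu i) (by
      intro w hw z hwz hz
      by_contra hzW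
      apply hz
      rw [Finset.mem_insert]
      right
      rw [hX, Finset.mem_sdiff, Finset.mem_union]
      exact ⟨Or.inl (mem_nb.mpr ⟨hzW, w, hw, hwz⟩), hzW⟩) (by
      intro haP
      by_contra haW
      apply haP
      rw [Finset.mem_insert]
      right
      rw [hX, Finset.mem_sdiff, Finset.mem_union]
      exact ⟨Or.inr haA, haW⟩) (hfP i)
    exact ⟨E, h1, h2, ⟨a, haA, h3⟩, h4, h5⟩
  have htrim' : ∀ i, ∃ E : Finset V, E ⊆ T' i ∧ Conn H E ∧ (∃ b ∈ B, b ∈ E) ∧ g i ∈ E ∧
      ∀ z ∈ E, z = g i ∨ (z ∉ W1 ∧ z ∉ insert y X) := by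
    intro i
    obtain ⟨hc, -, ⟨b, hbB, hbT⟩⟩ := hT' i
    obtain ⟨E, h1, h2, h3, h4, h5⟩ := trim (R := Finset.univ \ (W1 ∪ X)) hc (hgT i) hbT (hgu i) (by
      intro w hw z hwz hz
      simp only [Finset.mem_sdiff, Finset.mem_univ, true_and, Finset.mem_union, not_or] at hw ⊢
      refine ⟨?_, fun hc => hz (by simp [hc])⟩
      intro hzW
      apply hw.2
      rw [hX, Finset.mem_sdiff, Finset.mem_union]
      exact ⟨Or.inl (mem_nb.mpr ⟨hw.1, z, hzW, hwz.symm⟩), hw.1⟩) (by
      intro hbQ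
      simp only [Finset.mem_sdiff, Finset.mem_univ, true_and, Finset.mem_union, not_or]
      exact ⟨fun hc => Finset.disjoint_left.mp hW1B hc hbB, fun hc => hbQ (by simp [hc])⟩) (hgP i)
    refine ⟨E, h1, h2, ⟨b, hbB, h3⟩, h4, ?_⟩
    intro z hz
    rcases h5 z hz with h6 | h6
    · exact Or.inl h6
    · right
      have := h6.1
      simp only [Finset.mem_sdiff, Finset.mem_univ, true_and, Finset.mem_union, not_or] at this
      exact ⟨this.1, h6.2⟩
  choose E hET hEc hEA hEf hEz using htrim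
  choose E' hET' hEc' hEB' hEg' hEz' using htrim'
  -- matching
  have hj : ∀ i, ∃ j, g j = if f i = x then y else f i := by
    intro i
    apply hgs
    split_ifs with hfx
    · simp
    · have := hfP i
      rw [Finset.mem_insert] at this ⊢
      rcases this with h1 | h1
      · exact absurd h1 hfx
      · exact Or.inr h1
  choose j hj using hj
  have hyf : ∀ i, f i ≠ y := by
    intro i hc
    have := hfP i
    rw [hc, Finset.mem_insert] at this
    rcases this with h1 | h1
    · exact hne h1.symm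
    · exact hyX h1
  have hjinj : Function.Injective j := by
    intro i i' hii
    have h1 := hj i
    rw [hii, hj i'] at h1
    apply hfinj
    split_ifs at h1 with h2 h3 h3
    · rw [h2, h3]
    · exact absurd h1.symm (hyf i)
    · exact absurd h1 (hyf i')
    · exact h1.symm
  refine ⟨fun i => E i ∪ E' (j i), ?_, ?_⟩
  · intro i
    refine ⟨?_, ?_, ?_⟩
    · apply conn_union (conn_mono hHG (hEc i)) (conn_mono hHG (hEc' (j i))) (hEf i) (hEg' (j i))
      rw [hj i]
      split_ifs with hfx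
      · right
        rw [hfx]
        exact hxy
      · left
        rfl
    · obtain ⟨a, haA, haE⟩ := hEA i
      exact ⟨a, haA, by simp [haE]⟩
    · obtain ⟨b, hbB, hbE⟩ := hEB' (j i)
      exact ⟨b, hbB, by simp [hbE]⟩
  · have hcross : ∀ i i', i ≠ i' → Disjoint (E i) (E' (j i')) := by
      intro i i' hii
      rw [Finset.disjoint_left]
      intro z hz hz'
      have hgj := hj i'
      rcases hEz i z hz with h1 | ⟨h1, h1'⟩
      · -- `z = f i`
        rcases hEz' (j i') z hz' with h2 | ⟨h2, h2'⟩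
        · rw [h1, hgj] at h2
          split_ifs at h2 with h3
          · exact hyf i h2
          · exact hii (hfinj h2)
        · have h3 := hfP i
          rw [← h1, Finset.mem_insert] at h3
          rcases h3 with h3 | h3
          · rw [h3] at h2
            exact h2 hx
          · exact h2' (by simp [h3])
      · rcases hEz' (j i') z hz' with h2 | ⟨h2, h2'⟩
        · have h3 := hgP (j i')
          rw [← h2, Finset.mem_insert] at h3
          rcases h3 with h3 | h3
          · rw [h3] at h1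
            exact hy h1
          · exact h1' (by simp [h3])
        · exact h2 h1
    intro i i' hii
    rw [Finset.disjoint_union_left]
    refine ⟨?_, ?_⟩
    · rw [Finset.disjoint_union_right]
      exact ⟨(hTd i i' hii).mono (hET i) (hET i'), hcross i i' hii⟩
    · rw [Finset.disjoint_union_right]
      refine ⟨(hcross i' i (Ne.symm hii)).symm, ?_⟩
      exact (hTd' (j i) (j i') (fun hc => hii (hjinj hc))).mono (hET' _) (hET' _)

end Pool.Agent.Helper19.Ch
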