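import Pool.Agent.Helper75.Ch.Defs
import Pool.Agent.Helper19.Ch.Menger

set_option autoImplicit false

namespace Pool.Agent.Helper19.Ch

open Finset Classical Pool.Agent.Helper75.Ch

variable {V : Type*} [Fintype V]

/-- two vertices of a connected set are joined by a path inside the set. -/
lemma conn_path {G : SimpleGraph V} {T : Finset V} (hT : Conn G T) {a b : V} (ha : a ∈ T)
    (hb : b ∈ T) : ∃ p : G.Walk a b, p.IsPath ∧ ∀ v ∈ p.support, v ∈ T := by
  have h := hT.2 (T.filter fun z => ∃ p : G.Walk a z, ∀ v ∈ p.support, v ∈ T)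
    (Finset.filter_subset _ _) ⟨a, by
      rw [Finset.mem_filter]
      exact ⟨ha, SimpleGraph.Walk.nil, by simpa using ha⟩⟩ (by
      intro x hx y hy hxy
      rw [Finset.mem_filter] at hx ⊢
      obtain ⟨hxT, p, hp⟩ := hx
      refine ⟨hy, p.concat hxy, ?_⟩
      intro v hv
      rw [SimpleGraph.Walk.support_concat, List.mem_append] at hv
      rcases hv with hv | hv
      · exact hp v hv
      · rw [List.mem_singleton] at hv
        rw [hv]
        exact hy)
  rw [← h, Finset.mem_filter] at hb
  obtain ⟨-, p, hp⟩ := hb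
  exact ⟨p.bypass, p.bypass_isPath, fun v hv => hp v (p.support_bypass_subset_support hv)⟩

lemma path_extend {G : SimpleGraph V} {u a : V} (p : G.Walk u a) (hp : p.IsPath)
    {T : Finset V} (hT : Conn G T) (hdis : ∀ v ∈ p.support, v ∉ T) {x y : V} (hx : x ∈ T)
    (hax : G.Adj a x) (hy : y ∈ T) :
    ∃ q : G.Walk u y, q.IsPath ∧ (∀ v ∈ q.support, v ∈ p.support ∨ v ∈ T) ∧
      (∀ v ∈ p.support, v ∈ q.support) ∧
      ∀ e ∈ q.edges, e ∈ p.edges ∨ e = s(a, x) ∨ ∀ v ∈ e, v ∈ T := by
  obtain ⟨r, hr, hrT⟩ := conn_path hT hx hy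
  have hr' : (SimpleGraph.Walk.cons hax r).IsPath := by
    rw [SimpleGraph.Walk.cons_isPath_iff]
    exact ⟨hr, fun hc => hdis a p.end_mem_support (hrT a hc)⟩
  refine ⟨p.append (SimpleGraph.Walk.cons hax r), ?_, ?_, ?_, ?_⟩
  · rw [SimpleGraph.Walk.isPath_def, SimpleGraph.Walk.support_append, List.nodup_append]
    refine ⟨hp.support_nodup, ?_, ?_⟩
    · simpa using hr.support_nodup
    · intro v hv w hw hvw
      simp only [SimpleGraph.Walk.support_cons, List.tail_cons] at hw
      subst hvw
      exact hdis v hv (hrT v hw)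
  · intro v hv
    rw [SimpleGraph.Walk.mem_support_append_iff] at hv
    rcases hv with hv | hv
    · exact Or.inl hv
    · rw [SimpleGraph.Walk.support_cons, List.mem_cons] at hv
      rcases hv with hv | hv
      · left
        rw [hv]
        exact p.end_mem_support
      · exact Or.inr (hrT v hv)
  · intro v hv
    rw [SimpleGraph.Walk.mem_support_append_iff]
    exact Or.inl hv
  · intro e he
    rw [SimpleGraph.Walk.edges_append, List.mem_append, SimpleGraph.Walk.edges_cons,
      List.mem_cons] at he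
    rcases he with he | he | he
    · exact Or.inl he
    · exact Or.inr (Or.inl he)
    · right; right
      intro v hv
      exact hrT v (r.mem_support_of_mem_edges he hv)

/-- (T6) a cycle through prescribed vertices `w 0, …, w m`, with connected sets `B i` linking
`w i` to `w (i+1)` (and `B m` linking `w m` to `w 0`). -/
theorem cycle_of_blocks (G : SimpleGraph V) (m : ℕ) (hm : 1 ≤ m)
    (w : ℕ → V) (hw : ∀ i ≤ m, ∀ j ≤ m, w i = w j → i = j) (B : ℕ → Finset V)
    (hB : ∀ i ≤ m, Conn G (B i)) (hd : ∀ i ≤ m, ∀ j ≤ m, i ≠ j → Disjoint (B i) (B j))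
    (hwB : ∀ i ≤ m, ∀ j ≤ m, w i ∉ B j)
    (h1 : ∀ i ≤ m, ∃ x ∈ B i, G.Adj (w i) x)
    (h2 : ∀ i < m, ∃ x ∈ B i, G.Adj x (w (i + 1)))
    (h3 : ∃ x ∈ B m, G.Adj x (w 0)) :
    ∃ (v : V) (c : G.Walk v v), c.IsCycle ∧ (∀ i ≤ m, w i ∈ c.support) ∧
      ∀ e ∈ c.edges, ∃ j ≤ m, ∃ x ∈ B j, x ∈ e := by
  have key : ∀ n ≤ m, ∃ p : G.Walk (w 0) (w n), p.IsPath ∧
      (∀ v ∈ p.support, (∃ i ≤ n, v = w i) ∨ ∃ i < n, v ∈ B i) ∧
      (∀ i ≤ n, w i ∈ p.support) ∧ (∀ e ∈ p.edges, ∃ j < n, ∃ x ∈ B j, x ∈ e) := by
    intro n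
    induction n with
    | zero =>
      intro _
      refine ⟨SimpleGraph.Walk.nil, by simp, ?_, ?_, ?_⟩
      · intro v hv
        left
        exact ⟨0, le_rfl, by simpa using hv⟩
      · intro i hi
        have : i = 0 := by omega
        subst this
        simp
      · intro e he
        simp at he
    | succ n ih =>
      intro hn
      obtain ⟨p, hp, hps, hpw, hpe⟩ := ih (by omega)
      obtain ⟨x, hx, hax⟩ := h1 n (by omega)
      obtain ⟨y, hy, hyz⟩ := h2 n (by omega)
      have hdis : ∀ v ∈ p.support, v ∉ B n := by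
        intro v hv hvB
        rcases hps v hv with ⟨i, hi, rfl⟩ | ⟨i, hi, hvi⟩
        · exact hwB i (by omega) n (by omega) hvB
        · exact Finset.disjoint_left.mp (hd i (by omega) n (by omega) (by omega)) hvi hvB
      obtain ⟨q, hq, hqs, hqp, hqe⟩ := path_extend p hp (hB n (by omega)) hdis hx hax hy
      have hzq : w (n + 1) ∉ q.support := by
        intro hc
        rcases hqs _ hc with h | h
        · rcases hps _ h with ⟨i, hi, hwi⟩ | ⟨i, hi, hvi⟩
          · have := hw (n + 1) hn i (by omega) hwi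
            omega
          · exact hwB (n + 1) hn i (by omega) hvi
        · exact hwB (n + 1) hn n (by omega) h
      refine ⟨q.concat hyz, hq.concat hzq hyz, ?_, ?_, ?_⟩
      · intro v hv
        rw [SimpleGraph.Walk.support_concat, List.mem_append] at hv
        rcases hv with hv | hv
        · rcases hqs v hv with h | h
          · rcases hps v h with ⟨i, hi, hwi⟩ | ⟨i, hi, hvi⟩
            · exact Or.inl ⟨i, by omega, hwi⟩
            · exact Or.inr ⟨i, by omega, hvi⟩
          · exact Or.inr ⟨n, by omega, h⟩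
        · rw [List.mem_singleton] at hv
          exact Or.inl ⟨n + 1, le_rfl, hv⟩
      · intro i hi
        rw [SimpleGraph.Walk.support_concat, List.mem_append]
        rcases Nat.lt_or_ge i (n + 1) with h | h
        · left
          exact hqp _ (hpw i (by omega))
        · right
          have : i = n + 1 := by omega
          subst this
          simp
      · intro e he
        rw [SimpleGraph.Walk.edges_concat, List.concat_eq_append, List.mem_append] at he
        rcases he with he | he
        · rcases hqe e he with h | h | h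
          · obtain ⟨j, hj, hje⟩ := hpe e h
            exact ⟨j, by omega, hje⟩
          · exact ⟨n, by omega, x, hx, by rw [h]; simp⟩
          · refine ⟨n, by omega, ?_⟩
            induction e with
            | _ s t => exact ⟨s, h s (by simp), by simp⟩
        · rw [List.mem_singleton] at he
          exact ⟨n, by omega, y, hy, by rw [he]; simp⟩
  obtain ⟨p, hp, hps, hpw, hpe⟩ := key m le_rfl
  obtain ⟨x, hx, hax⟩ := h1 m le_rfl
  obtain ⟨y, hy, hyz⟩ := h3
  have hdis : ∀ v ∈ p.support, v ∉ B m := by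
    intro v hv hvB
    rcases hps v hv with ⟨i, hi, rfl⟩ | ⟨i, hi, hvi⟩
    · exact hwB i hi m le_rfl hvB
    · exact Finset.disjoint_left.mp (hd i (by omega) m le_rfl (by omega)) hvi hvB
  obtain ⟨q, hq, hqs, hqp, hqe⟩ := path_extend p hp (hB m le_rfl) hdis hx hax hy
  refine ⟨y, SimpleGraph.Walk.cons hyz q, ?_, ?_, ?_⟩
  · rw [SimpleGraph.Walk.cons_isCycle_iff]
    refine ⟨hq, ?_⟩
    intro hc
    rcases hqe _ hc with h | h | h
    · exact hdis y (p.fst_mem_support_of_mem_edges h) hy
    · rw [Sym2.eq_iff] at h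
      rcases h with ⟨h, -⟩ | ⟨h, h'⟩
      · rw [h] at hy
        exact hwB m le_rfl m le_rfl hy
      · have := hw 0 (by omega) m le_rfl h'
        omega
    · exact hwB 0 (by omega) m le_rfl (h (w 0) (by simp))
  · intro i hi
    rw [SimpleGraph.Walk.support_cons, List.mem_cons]
    exact Or.inr (hqp _ (hpw i hi))
  · intro e he
    rw [SimpleGraph.Walk.edges_cons, List.mem_cons] at he
    rcases he with he | he
    · exact ⟨m, le_rfl, y, hy, by rw [he]; simp⟩
    · rcases hqe e he with h | h | h
      · obtain ⟨j, hj, hje⟩ := hpe e h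
        exact ⟨j, by omega, hje⟩
      · exact ⟨m, le_rfl, x, hx, by rw [h]; simp⟩
      · refine ⟨m, le_rfl, ?_⟩
        induction e with
        | _ s t => exact ⟨s, h s (by simp), by simp⟩

lemma tau_le_one (n : ℕ) : tau n ≤ 1 := by
  unfold tau
  have h : 0 ≤ Real.log n := Real.log_natCast_nonneg n
  rw [div_le_one (by linarith)]
  linarith

lemma mem_nbv {G : SimpleGraph V} {x y : V} : y ∈ nbv G x ↔ G.Adj x y := by
  simp [nbv]

lemma card_nbv (G : SimpleGraph V) (v : V) : (nbv G v).card = G.degree v := by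
  rw [← SimpleGraph.card_neighborFinset_eq_degree]
  congr 1
  ext y
  simp [nbv]

/-- (T7) Every potential-minimal graph contains a cycle. -/
theorem pm_cycle {V : Type*} [Fintype V] (G : SimpleGraph V) (h : PM G) (hne : Nonempty V) :
    ∃ (v : V) (c : G.Walk v v), c.IsCycle := by
  by_contra hno
  push_neg at hno
  have hac : G.IsAcyclic := fun v c hc => hno v c hc
  obtain ⟨T, hGT, -, hT⟩ := SimpleGraph.Connected.exists_isTree_le_of_le_of_isAcyclic
    (SimpleGraph.connected_top (V := V)) (le_top : G ≤ ⊤) hac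
  have h1 := hT.card_edgeFinset
  have h2 : G.edgeFinset.card ≤ T.edgeFinset.card :=
    Finset.card_le_card (SimpleGraph.edgeFinset_mono hGT)
  have h3 := G.sum_degrees_eq_twice_card_edges
  have h4 : 3 * Fintype.card V ≤ dfc G Finset.univ + ∑ v, G.degree v := by
    unfold dfc
    rw [← Finset.sum_add_distrib]
    have : 3 * Fintype.card V = ∑ _v : V, 3 := by simp [mul_comm]
    rw [this]
    apply Finset.sum_le_sum
    intro v _
    rw [Finset.inter_univ, card_nbv]
    omega
  have h5 : Fintype.card V < dfc G Finset.univ := by omega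
  have h6 := h.1
  have h7 := tau_le_one (Fintype.card V)
  have h8 : (Fintype.card V : ℝ) < dfc G Finset.univ := by exact_mod_cast h5
  have h9 : (0 : ℝ) ≤ Fintype.card V := Nat.cast_nonneg _
  nlinarith

lemma dfc_comap (G : SimpleGraph V) (X : Finset V) (Y : Finset {x // x ∈ X}) :
    dfc (G.comap (Subtype.val : {x // x ∈ X} → V)) Y =
      dfc G (Y.map (Function.Embedding.subtype _)) := by
  unfold dfc
  rw [Finset.sum_map]
  apply Finset.sum_congr rfl
  intro v _
  congr 1
  rw [← Finset.card_map (Function.Embedding.subtype _)]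
  congr 1
  ext y
  simp only [Finset.mem_map, Finset.mem_inter, mem_nbv, SimpleGraph.comap_adj,
    Function.Embedding.subtype_apply]
  constructor
  · rintro ⟨a, ⟨h1, h2⟩, rfl⟩
    exact ⟨h1, a, h2, rfl⟩
  · rintro ⟨h1, a, h2, rfl⟩
    exact ⟨a, ⟨h1, h2⟩, rfl⟩

/-- (T8) Existence of a potential-minimal induced subgraph. -/
theorem exists_PM [Nonempty V] (G : SimpleGraph V)
    (h : ∀ v, 3 ≤ (nbv G v).card) :
    ∃ X : Finset V, X.Nonempty ∧ PM (G.comap (Subtype.val : {x // x ∈ X} → V)) := by
  have hex : ∃ n : ℕ, ∃ X : Finset V, X.Nonempty ∧ (dfc G X : ℝ) ≤ tau X.card * X.card ∧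
      X.card = n := by
    refine ⟨_, Finset.univ, Finset.univ_nonempty, ?_, rfl⟩
    have : dfc G Finset.univ = 0 := by
      unfold dfc
      apply Finset.sum_eq_zero
      intro v _
      rw [Finset.inter_univ]
      have := h v
      omega
    rw [this]
    have h0 : 0 ≤ Real.log (Finset.univ : Finset V).card := Real.log_natCast_nonneg _
    have h1 : 0 ≤ tau (Finset.univ : Finset V).card := by
      unfold tau
      apply div_nonneg zero_le_one
      linarith
    rw [Nat.cast_zero]
    exact mul_nonneg h1 (Nat.cast_nonneg _)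
  obtain ⟨X, hX, hXd, hXc⟩ := Nat.find_spec hex
  refine ⟨X, hX, ?_, ?_⟩
  · rw [dfc_comap, Fintype.card_coe]
    have : (Finset.univ : Finset {x // x ∈ X}).map (Function.Embedding.subtype _) = X := by
      ext y
      simp
    rw [this]
    exact hXd
  · intro Y hY hYne
    rw [dfc_comap]
    by_contra hc
    push_neg at hc
    obtain ⟨x, hx⟩ : ∃ x, x ∉ Y := by
      by_contra hall
      push_neg at hall
      exact hYne (Finset.eq_univ_of_forall hall)
    have hlt : Y.card < Nat.find hex := by
      have h1 := Finset.card_lt_univ_of_notMem hx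
      rw [Fintype.card_coe, hXc] at h1
      exact h1
    apply Nat.find_min hex hlt
    refine ⟨Y.map (Function.Embedding.subtype _), by simpa using hY, ?_, by simp⟩
    rw [Finset.card_map]
    exact hc

end Pool.Agent.Helper19.Ch
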